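import Pool.Agent.Results.MP_4efd57_nt.CorrelatedDiscrepancyBounded

/-!
# Sequences of paperfolding type and their correlations
-/

set_option autoImplicit false

open Finset

namespace Pool.Agent.Y754.PP

/-- `f` is of paperfolding type with the data `ε`: `f (2 ^ j * (2 * m + 1)) = (-1) ^ m * ε j` -/
def Paper (ε f : ℕ → ℂ) : Prop := ∀ j m : ℕ, f (2 ^ j * (2 * m + 1)) = (-1) ^ m * ε j

lemma decomp (n : ℕ) (hn : 1 ≤ n) : ∃ j m : ℕ, n = 2 ^ j * (2 * m + 1) := by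
  obtain ⟨j, u, hu, rfl⟩ := Nat.exists_eq_two_pow_mul_odd (n := n) (by omega)
  obtain ⟨m, rfl⟩ := hu
  exact ⟨j, m, rfl⟩

lemma Paper.norm {ε f : ℕ → ℂ} (h : Paper ε f) (hε : ∀ j, ‖ε j‖ = 1) (n : ℕ) (hn : 1 ≤ n) :
    ‖f n‖ = 1 := by
  obtain ⟨j, m, rfl⟩ := decomp n hn
  rw [h j m, norm_mul, norm_pow, norm_neg, norm_one, one_pow, one_mul, hε j]

/-- restriction to the multiples of `d` -/
lemma Paper.dilate {ε f : ℕ → ℂ} (h : Paper ε f) (d : ℕ) (hd : 1 ≤ d) :
    ∃ i c : ℕ, Paper (fun j => (-1) ^ c * ε (i + j)) (fun k => f (k * d)) := by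
  obtain ⟨i, c, rfl⟩ := decomp d hd
  refine ⟨i, c, fun j m => ?_⟩
  have e : 2 ^ j * (2 * m + 1) * (2 ^ i * (2 * c + 1)) =
      2 ^ (i + j) * (2 * (2 * m * c + m + c) + 1) := by
    rw [pow_add]; ring
  show f (2 ^ j * (2 * m + 1) * (2 ^ i * (2 * c + 1))) = _
  rw [e, h]
  have h2 : ((-1 : ℂ)) ^ (2 * m * c + m + c) = (-1) ^ m * (-1) ^ c := by
    rw [pow_add, pow_add, mul_assoc, pow_mul]
    norm_num
  rw [h2]
  ring

lemma Paper.odd {ε f : ℕ → ℂ} (h : Paper ε f) (m : ℕ) : f (2 * m + 1) = (-1) ^ m * ε 0 := by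
  have := h 0 m
  simpa using this

/-- the telescoping function -/
noncomputable def tel (f : ℕ → ℂ) (h : ℕ) (j : ℕ) : ℂ := if j % 2 = 0 then f j * f (j + h) else 0

lemma term_eq {ε f : ℕ → ℂ} (hP : Paper ε f) (c k : ℕ) :
    f k * f (k + (2 * c + 1)) = tel f (2 * c + 1) k - tel f (2 * c + 1) (k + (2 * c + 1)) := by
  unfold tel
  rcases Nat.even_or_odd' k with ⟨q, hq | hq⟩
  · rw [if_pos (by omega), if_neg (by omega), sub_zero]
  · rw [if_neg (by omega), if_pos (by omega), zero_sub]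
    have h1 : k + (2 * c + 1) + (2 * c + 1) = 2 * (q + 2 * c + 1) + 1 := by omega
    rw [h1, hP.odd (q + 2 * c + 1), hq, hP.odd q]
    have h2 : ((-1 : ℂ)) ^ (q + 2 * c + 1) = - (-1) ^ q := by
      rw [pow_add, pow_add, pow_mul]; norm_num
    rw [h2]
    ring

lemma sum_eq {ε f : ℕ → ℂ} (hP : Paper ε f) (c n : ℕ) :
    ∑ k ∈ Icc 1 n, f k * f (k + (2 * c + 1)) =
      ∑ k ∈ range (2 * c + 1), tel f (2 * c + 1) (1 + k) -
      ∑ k ∈ range (2 * c + 1), tel f (2 * c + 1) (n + 1 + k) := by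
  induction n with
  | zero => simp
  | succ n ih =>
    rw [sum_Icc_succ_top (by omega), ih, term_eq hP]
    have h1 := sum_range_succ (fun k => tel f (2 * c + 1) (n + 1 + k)) (2 * c + 1)
    have h2 := sum_range_succ' (fun k => tel f (2 * c + 1) (n + 1 + k)) (2 * c + 1)
    rw [h1] at h2
    have h3 : ∑ k ∈ range (2 * c + 1), tel f (2 * c + 1) (n + 1 + (k + 1)) =
        ∑ k ∈ range (2 * c + 1), tel f (2 * c + 1) (n + 1 + 1 + k) :=
      sum_congr rfl fun k _ => by congr 1; omega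
    rw [h3, add_zero] at h2
    linear_combination -h2

/-- one at the even numbers, zero at the odd ones -/
def ev (x : ℕ) : ℝ := if x % 2 = 0 then 1 else 0

lemma ev_sum (n c : ℕ) : ∑ k ∈ range (2 * c + 1), ev (n + k) = c + ev n := by
  induction c with
  | zero => simp
  | succ c ih =>
    rw [show 2 * (c + 1) + 1 = 2 * c + 1 + 1 + 1 by ring, sum_range_succ, sum_range_succ, ih]
    have : ev (n + (2 * c + 1)) + ev (n + (2 * c + 1 + 1)) = 1 := by
      unfold ev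
      rcases Nat.even_or_odd' n with ⟨q, hq | hq⟩
      · rw [if_neg (by omega), if_pos (by omega)]; norm_num
      · rw [if_pos (by omega), if_neg (by omega)]; norm_num
    push_cast
    linarith

/-- the correlation sums of a sequence of paperfolding type with an odd shift `h` are at most
`h` -/
theorem Paper.bound {ε f : ℕ → ℂ} (hP : Paper ε f) (hε : ∀ j, ‖ε j‖ = 1) (c d n : ℕ)
    (hd : 1 ≤ d) :
    ‖∑ k ∈ Icc 1 n, f (k * d) * f (k * d + (2 * c + 1) * d)‖ ≤ 2 * c + 1 := by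
  obtain ⟨i, b, hP'⟩ := hP.dilate d hd
  set F : ℕ → ℂ := fun k => f (k * d) with hF
  have hε' : ∀ j, ‖(-1 : ℂ) ^ b * ε (i + j)‖ = 1 := by
    intro j
    rw [norm_mul, norm_pow, norm_neg, norm_one, one_pow, one_mul, hε]
  have e1 : ∑ k ∈ Icc 1 n, f (k * d) * f (k * d + (2 * c + 1) * d) =
      ∑ k ∈ Icc 1 n, F k * F (k + (2 * c + 1)) := by
    refine sum_congr rfl fun k _ => ?_
    have e2 : k * d + (2 * c + 1) * d = (k + (2 * c + 1)) * d := by ring
    rw [e2]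
  rw [e1, sum_eq hP']
  have htel : ∀ x, 1 ≤ x → ‖tel F (2 * c + 1) x‖ ≤ ev x := by
    intro x hx
    unfold tel ev
    split_ifs
    · rw [norm_mul, hP'.norm hε' x hx, hP'.norm hε' _ (by omega), one_mul]
    · rw [norm_zero]
  have hT : ∀ x, 1 ≤ x → ‖∑ k ∈ range (2 * c + 1), tel F (2 * c + 1) (x + k)‖ ≤ c + ev x := by
    intro x hx
    rw [← ev_sum]
    exact (norm_sum_le _ _).trans (sum_le_sum fun k _ => htel _ (by omega))
  have h1 := hT 1 le_rfl
  have h2 := hT (n + 1) (by omega)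
  have h3 : ev 1 = 0 := by unfold ev; norm_num
  have h4 : ev (n + 1) ≤ 1 := by unfold ev; split_ifs <;> norm_num
  refine (norm_sub_le _ _).trans ?_
  linarith

end Pool.Agent.Y754.PP
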