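import Pool.Agent.Y754.PP.Basic

/-!
# Classification of the sign sequences with correlated discrepancy one, and even shifts
-/

set_option autoImplicit false

open Finset

namespace Pool.Agent.Y754.PP

open Pool.Agent.Results.MP_4efd57_nt.CorrelatedDiscrepancyBounded (g g_mul g_odd)

/-- sums of `2 m` signs are even -/
lemma sign_sum_even (s : ℕ → ℤ) (hs : ∀ k, 1 ≤ k → s k = 1 ∨ s k = -1) (m : ℕ) :
    ∃ q : ℤ, ∑ k ∈ Icc 1 (2 * m), s k = 2 * q := by
  induction m with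
  | zero => exact ⟨0, by simp⟩
  | succ m ih =>
    obtain ⟨q, hq⟩ := ih
    rw [show 2 * (m + 1) = 2 * m + 1 + 1 by ring, sum_Icc_succ_top (by omega),
      sum_Icc_succ_top (by omega), hq]
    rcases hs (2 * m + 1) (by omega) with h1 | h1 <;> rcases hs (2 * m + 1 + 1) (by omega) with
      h2 | h2 <;> rw [h1, h2]
    · exact ⟨q + 1, by ring⟩
    · exact ⟨q, by ring⟩
    · exact ⟨q, by ring⟩
    · exact ⟨q - 1, by ring⟩

/-- a sign sequence all of whose correlated sums are at most one is of paperfolding type -/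
theorem paper_of_bound (f : ℕ → ℂ) (hf : ∀ n : ℕ, 1 ≤ n → f n = 1 ∨ f n = -1)
    (hb : ∀ d n : ℕ, 1 ≤ d → 1 ≤ n → ‖∑ k ∈ Icc 1 n, f (k * d) * f (k * d + d)‖ ≤ 1) :
    ∃ ε : ℕ → ℂ, (∀ j, ε j = 1 ∨ ε j = -1) ∧ Paper ε f := by
  classical
  set s : ℕ → ℤ := fun n => if f n = 1 then 1 else -1 with hs
  have hs1 : ∀ n, s n = 1 ∨ s n = -1 := by
    intro n
    simp only [hs]
    split_ifs
    · exact Or.inl rfl
    · exact Or.inr rfl
  have hfs : ∀ n, 1 ≤ n → f n = (s n : ℂ) := by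
    intro n hn
    simp only [hs]
    rcases hf n hn with h | h
    · rw [h]; simp
    · rw [h, if_neg]
      · push_cast; ring
      · norm_num
  have hzero : ∀ d m : ℕ, 1 ≤ d → ∑ k ∈ Icc 1 (2 * m), s (k * d) * s (k * d + d) = 0 := by
    intro d m hd
    rcases Nat.eq_zero_or_pos m with h0 | h0
    · subst h0; simp
    · obtain ⟨q, hq⟩ := sign_sum_even (fun k => s (k * d) * s (k * d + d)) (by
        intro k _
        rcases hs1 (k * d) with h1 | h1 <;> rcases hs1 (k * d + d) with h2 | h2 <;>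
          simp only [h1, h2] <;> norm_num) m
      have h1 := hb d (2 * m) hd (by omega)
      have e : ∑ k ∈ Icc 1 (2 * m), f (k * d) * f (k * d + d) =
          ((∑ k ∈ Icc 1 (2 * m), s (k * d) * s (k * d + d) : ℤ) : ℂ) := by
        push_cast
        refine sum_congr rfl fun k hk => ?_
        rw [mem_Icc] at hk
        have h2 : 1 ≤ k * d := Nat.mul_pos hk.1 hd
        rw [hfs _ h2, hfs _ (by omega)]
      rw [e, Complex.norm_intCast] at h1
      have h2 : |∑ k ∈ Icc 1 (2 * m), s (k * d) * s (k * d + d)| ≤ 1 := by exact_mod_cast h1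
      rw [hq, abs_le] at h2
      rw [hq]
      omega
  have hstep : ∀ d m : ℕ, 1 ≤ d → s ((2 * m + 3) * d) = - s ((2 * m + 1) * d) := by
    intro d m hd
    have h1 := hzero d m hd
    have h2 := hzero d (m + 1) hd
    rw [show 2 * (m + 1) = 2 * m + 1 + 1 by ring, sum_Icc_succ_top (by omega),
      sum_Icc_succ_top (by omega), h1, zero_add] at h2
    have e1 : (2 * m + 1) * d + d = (2 * m + 1 + 1) * d := by ring
    have e2 : (2 * m + 1 + 1) * d + d = (2 * m + 3) * d := by ring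
    rw [e1, e2] at h2
    have h3 : s ((2 * m + 1 + 1) * d) * s ((2 * m + 1 + 1) * d) = 1 := by
      rcases hs1 ((2 * m + 1 + 1) * d) with h | h <;> rw [h] <;> norm_num
    linear_combination s ((2 * m + 1 + 1) * d) * h2 -
      (s ((2 * m + 1) * d) + s ((2 * m + 3) * d)) * h3
  have hall : ∀ d m : ℕ, 1 ≤ d → s ((2 * m + 1) * d) = (-1) ^ m * s d := by
    intro d m hd
    induction m with
    | zero => simp
    | succ m ih =>
      rw [show 2 * (m + 1) + 1 = 2 * m + 3 by ring, hstep d m hd, ih, pow_succ]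
      ring
  refine ⟨fun j => f (2 ^ j), fun j => hf _ (Nat.one_le_two_pow), fun j m => ?_⟩
  have h1 : 1 ≤ 2 ^ j := Nat.one_le_two_pow
  have h2 : 1 ≤ 2 ^ j * (2 * m + 1) := Nat.mul_pos h1 (by omega)
  show f (2 ^ j * (2 * m + 1)) = (-1) ^ m * f (2 ^ j)
  rw [hfs _ h2, hfs _ h1, mul_comm (2 ^ j), hall _ m h1]
  push_cast
  ring

/-- the completely multiplicative function of paperfolding type with value `z` at two -/
noncomputable def mul (z : ℂ) (n : ℕ) : ℂ := z ^ (n.factorization 2) * (g n : ℂ)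

lemma mul_mul (z : ℂ) (m n : ℕ) (hm : 1 ≤ m) (hn : 1 ≤ n) :
    mul z (m * n) = mul z m * mul z n := by
  unfold mul
  rw [Nat.factorization_mul (by omega) (by omega), g_mul]
  simp only [Finsupp.coe_add, Pi.add_apply, Int.cast_mul]
  rw [pow_add]
  ring

lemma chi_odd (m : ℕ) : g (2 * m + 1) = (-1) ^ m := by
  rw [g_odd _ (by omega), ZMod.χ₄_nat_eq_if_mod_four, if_neg (by omega)]
  rcases Nat.even_or_odd' m with ⟨q, hq | hq⟩
  · rw [if_pos (by omega), hq, pow_mul]; norm_num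
  · rw [if_neg (by omega), hq, pow_add, pow_mul]; norm_num

lemma g_two_pow (j : ℕ) : g (2 ^ j) = 1 := by
  induction j with
  | zero =>
    have := chi_odd 0
    simpa using this
  | succ j ih =>
    rw [pow_succ, g_mul, ih, one_mul]
    exact Pool.Agent.Results.MP_4efd57_nt.CorrelatedDiscrepancyBounded.g_two

lemma mul_paper (z : ℂ) : Paper (fun j => z ^ j) (mul z) := by
  intro j m
  unfold mul
  rw [g_mul, g_two_pow, chi_odd]
  have h : (2 ^ j * (2 * m + 1)).factorization 2 = j := by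
    rw [Nat.factorization_mul (by positivity) (by omega), Nat.factorization_pow]
    simp only [Finsupp.coe_add, Pi.add_apply, Finsupp.coe_smul, Pi.smul_apply, smul_eq_mul]
    rw [Nat.Prime.factorization_self Nat.prime_two,
      Nat.factorization_eq_zero_of_not_dvd (by omega)]
    ring
  rw [h]
  push_cast
  ring

lemma mul_two (z : ℂ) : mul z 2 = z := by
  have := mul_paper z 1 0
  simpa using this

/-- one term of the correlation with an even shift -/
lemma even_term {ε f : ℕ → ℂ} (hP : Paper ε f) (hε : ∀ j, ε j = 1 ∨ ε j = -1) (i c r q : ℕ)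
    (hr0 : 1 ≤ r) (hr : r < 2 ^ (i + 1)) :
    f (2 ^ (i + 1) * q + r) * f (2 ^ (i + 1) * q + r + 2 ^ (i + 1) * (2 * c + 1)) =
      if r = 2 ^ i then -1 else 1 := by
  obtain ⟨l, m, rfl⟩ := decomp r hr0
  have hl : l < i + 1 := by
    by_contra h
    push Not at h
    have h1 : 2 ^ (i + 1) ≤ 2 ^ l := Nat.pow_le_pow_right (by norm_num) h
    have h2 : 2 ^ l ≤ 2 ^ l * (2 * m + 1) := Nat.le_mul_of_pos_right _ (by omega)
    omega
  obtain ⟨t, rfl⟩ : ∃ t, i = l + t := ⟨i - l, by omega⟩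
  have e1 : 2 ^ (l + t + 1) * q + 2 ^ l * (2 * m + 1) = 2 ^ l * (2 * (2 ^ t * q + m) + 1) := by
    rw [pow_succ, pow_add]; ring
  have e2 : 2 ^ (l + t + 1) * q + 2 ^ l * (2 * m + 1) + 2 ^ (l + t + 1) * (2 * c + 1) =
      2 ^ l * (2 * (2 ^ t * q + m + 2 ^ t * (2 * c + 1)) + 1) := by
    rw [pow_succ, pow_add]; ring
  rw [e1] at e2 ⊢
  rw [e2, hP, hP]
  have h3 : ε l * ε l = 1 := by rcases hε l with h | h <;> rw [h] <;> norm_num
  have h4 : ((-1 : ℂ)) ^ (2 ^ t * q + m) * (-1) ^ (2 ^ t * q + m) = 1 := by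
    rw [← mul_pow]; norm_num
  have h5 : ((-1 : ℂ)) ^ (2 ^ t * q + m) * ε l * ((-1) ^ (2 ^ t * q + m + 2 ^ t * (2 * c + 1)) *
      ε l) = (-1) ^ (2 ^ t * (2 * c + 1)) := by
    rw [pow_add (-1 : ℂ) (2 ^ t * q + m) (2 ^ t * (2 * c + 1))]
    linear_combination ((-1 : ℂ)) ^ (2 ^ t * (2 * c + 1)) * ε l * ε l * h4 +
      ((-1 : ℂ)) ^ (2 ^ t * (2 * c + 1)) * h3
  rw [h5]
  cases t with
  | zero =>
    have hm : m = 0 := by
      by_contra hm
      have h6 : 2 ^ l * 3 ≤ 2 ^ l * (2 * m + 1) := Nat.mul_le_mul_left _ (by omega)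
      have h7 : 2 ^ (l + 0 + 1) = 2 ^ l * 2 := by rw [add_zero, pow_succ]
      have h8 : 0 < 2 ^ l := by positivity
      omega
    subst hm
    rw [if_pos (by simp)]
    rw [pow_zero, one_mul, pow_succ, pow_mul]; norm_num
  | succ t =>
    rw [if_neg]
    · rw [pow_succ, mul_comm (2 ^ t) 2, mul_assoc, pow_mul]
      norm_num
    · intro h6
      have h7 : 2 ^ (l + (t + 1)) = 2 ^ l * (2 * 2 ^ t) := by rw [pow_add, pow_succ]; ring
      rw [h7] at h6
      have h8 := Nat.eq_of_mul_eq_mul_left (by positivity) h6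
      omega

lemma split_shift (A B : ℕ) : Icc 1 (A + B) = Icc 1 A ∪ (Icc 1 B).image (fun r => A + r) := by
  ext k
  simp only [mem_union, mem_image, mem_Icc]
  constructor
  · rintro ⟨h1, h2⟩
    by_cases h : k ≤ A
    · exact Or.inl ⟨h1, h⟩
    · exact Or.inr ⟨k - A, ⟨by omega, by omega⟩, by omega⟩
  · rintro (⟨h1, h2⟩ | ⟨r, ⟨h1, h2⟩, rfl⟩)
    · exact ⟨h1, by omega⟩
    · exact ⟨by omega, by omega⟩

lemma disj_shift (A B : ℕ) : Disjoint (Icc 1 A) ((Icc 1 B).image (fun r => A + r)) := by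
  rw [Finset.disjoint_left]
  intro k h1 h2
  simp only [mem_image, mem_Icc] at h1 h2
  obtain ⟨r, h3, h4⟩ := h2
  omega

lemma even_block {ε f : ℕ → ℂ} (hP : Paper ε f) (hε : ∀ j, ε j = 1 ∨ ε j = -1) (i c N : ℕ) :
    ∑ k ∈ Icc 1 (2 ^ (i + 1) * N), f k * f (k + 2 ^ (i + 1) * (2 * c + 1)) =
      N * (2 ^ (i + 1) - 3) + ∑ k ∈ Icc 1 N, f (k * 2 ^ (i + 1)) *
        f (k * 2 ^ (i + 1) + (2 * c + 1) * 2 ^ (i + 1)) := by
  induction N with
  | zero => simp
  | succ N ih =>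
    have hdisj := disj_shift (2 ^ (i + 1) * N) (2 ^ (i + 1))
    have hsplit : Icc 1 (2 ^ (i + 1) * (N + 1)) =
        Icc 1 (2 ^ (i + 1) * N) ∪ (Icc 1 (2 ^ (i + 1))).image (fun r => 2 ^ (i + 1) * N + r) := by
      rw [Nat.mul_succ, split_shift]
    rw [hsplit, sum_union hdisj, ih, sum_image (by intro a _ b _ h; simpa using h)]
    have hpos : 0 < 2 ^ (i + 1) := by positivity
    obtain ⟨w, hw⟩ : ∃ w, 2 ^ (i + 1) = w + 1 := ⟨2 ^ (i + 1) - 1, by omega⟩
    have hmain : ∑ r ∈ Icc 1 (2 ^ (i + 1)), f (2 ^ (i + 1) * N + r) *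
        f (2 ^ (i + 1) * N + r + 2 ^ (i + 1) * (2 * c + 1)) =
        (2 ^ (i + 1) - 3) + f ((N + 1) * 2 ^ (i + 1)) *
          f ((N + 1) * 2 ^ (i + 1) + (2 * c + 1) * 2 ^ (i + 1)) := by
      have h1 : Icc 1 (2 ^ (i + 1)) = Icc 1 (w + 1) := by rw [hw]
      rw [h1, sum_Icc_succ_top (by omega)]
      have h2 : ∑ r ∈ Icc 1 w, f (2 ^ (i + 1) * N + r) *
          f (2 ^ (i + 1) * N + r + 2 ^ (i + 1) * (2 * c + 1)) =
          ∑ r ∈ Icc 1 w, (if r = 2 ^ i then (-1 : ℂ) else 1) := by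
        refine sum_congr rfl fun r hr => ?_
        rw [mem_Icc] at hr
        exact even_term hP hε i c r N hr.1 (by omega)
      have h3 : ∑ r ∈ Icc 1 w, (if r = 2 ^ i then (-1 : ℂ) else 1) = w - 2 := by
        have h4 : ∀ r ∈ Icc 1 w, (if r = 2 ^ i then (-1 : ℂ) else 1) =
            1 - (if r = 2 ^ i then 2 else 0) := by
          intro r _
          split_ifs <;> norm_num
        rw [sum_congr rfl h4, sum_sub_distrib, Finset.sum_ite_eq' (Icc 1 w) (2 ^ i)]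
        have h5 : 2 ^ i ∈ Icc 1 w := by
          rw [mem_Icc]
          have h6 : 1 ≤ 2 ^ i := Nat.one_le_two_pow
          have h7 : 2 ^ (i + 1) = 2 * 2 ^ i := by rw [pow_succ]; ring
          omega
        rw [if_pos h5]
        simp
      rw [h2, h3]
      have h6 : ((2 : ℂ)) ^ (i + 1) = w + 1 := by exact_mod_cast hw
      have e1 : 2 ^ (i + 1) * N + (w + 1) = (N + 1) * 2 ^ (i + 1) := by rw [← hw]; ring
      rw [e1, h6, mul_comm (2 * c + 1) (2 ^ (i + 1))]
      ring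
    rw [hmain, sum_Icc_succ_top (by omega)]
    push_cast
    ring

/-- for even shifts the correlation sums of a sign sequence of paperfolding type are unbounded -/
theorem even_unbounded {ε f : ℕ → ℂ} (hP : Paper ε f) (hε : ∀ j, ε j = 1 ∨ ε j = -1) (h : ℕ)
    (hh : Even h) (h0 : h ≠ 0) (C : ℝ) :
    ∃ n : ℕ, 1 ≤ n ∧ C < ‖∑ k ∈ Icc 1 n, f k * f (k + h)‖ := by
  obtain ⟨j, c, rfl⟩ := decomp h (by omega)
  obtain ⟨i, rfl⟩ : ∃ i, j = i + 1 := by
    rcases Nat.eq_zero_or_pos j with hj | hj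
    · subst hj
      rw [pow_zero, one_mul] at hh
      exact absurd hh (by simp [parity_simps])
    · exact ⟨j - 1, by omega⟩
  obtain ⟨N, hN⟩ := exists_nat_gt (|C| + (2 * c + 1))
  refine ⟨2 ^ (i + 1) * (N + 1), Nat.mul_pos (by positivity) (by omega), ?_⟩
  rw [even_block hP hε]
  have hε1 : ∀ j, ‖ε j‖ = 1 := by
    intro j
    rcases hε j with h | h <;> rw [h] <;> simp
  have hb := hP.bound hε1 c (2 ^ (i + 1)) (N + 1) (Nat.one_le_two_pow)
  have h1 : (1 : ℝ) ≤ ‖((2 : ℂ)) ^ (i + 1) - 3‖ := by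
    have e : ((2 : ℂ)) ^ (i + 1) - 3 = ((2 ^ (i + 1) - 3 : ℤ) : ℂ) := by push_cast; ring
    rw [e, Complex.norm_intCast]
    have h2 : (1 : ℤ) ≤ |2 ^ (i + 1) - 3| := by
      refine Int.one_le_abs ?_
      intro h3
      have h4 : (2 : ℤ) ^ (i + 1) = 2 * 2 ^ i := by rw [pow_succ]; ring
      omega
    exact_mod_cast h2
  have h2 : ‖((N + 1 : ℕ) : ℂ) * ((2 : ℂ) ^ (i + 1) - 3)‖ ≥ N + 1 := by
    rw [norm_mul, Complex.norm_natCast]
    push_cast
    nlinarith [Nat.cast_nonneg (α := ℝ) N]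
  have h3 := norm_add_le (((N + 1 : ℕ) : ℂ) * ((2 : ℂ) ^ (i + 1) - 3) +
    ∑ k ∈ Icc 1 (N + 1), f (k * 2 ^ (i + 1)) * f (k * 2 ^ (i + 1) + (2 * c + 1) * 2 ^ (i + 1)))
    (-(∑ k ∈ Icc 1 (N + 1), f (k * 2 ^ (i + 1)) *
      f (k * 2 ^ (i + 1) + (2 * c + 1) * 2 ^ (i + 1))))
  rw [add_neg_cancel_right, norm_neg] at h3
  have h4 := le_abs_self C
  linarith

end Pool.Agent.Y754.PP
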